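import Pool.Agent.W717.UR.Stm

set_option autoImplicit false

namespace Pool.Agent.W215.UR

open Pool.Agent.W717.UR
open Filter Topology

lemma N_ge {G N : ℕ → ℕ} {e : ℕ → ℕ → ℤ} (h : Par G N e) (k : ℕ) : G k + 2 ≤ N k := by
  obtain ⟨q, hq, hq2⟩ := h.hneg k
  by_contra hc
  push Not at hc
  have := h.hone k q (by omega)
  rw [this] at hq2
  norm_num at hq2

lemma hh_succ_ge {G N : ℕ → ℕ} {e : ℕ → ℕ → ℤ} (h : Par G N e) (k : ℕ) :
    3 * (hh G N k + 1) ≤ hh G N (k + 1) := by
  have h1 := h.hG k
  have h2 : 3 * (hh G N k + 1) ≤ G k * (hh G N k + 1) := Nat.mul_le_mul_right _ (by omega)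
  have h3 : hh G N (k + 1) = G k * (hh G N k + 1) + N k * hh G N k := rfl
  omega

/-- UR-BASIC: elementary facts on the blocks -/
theorem basic : S_BASIC := by
  intro G N e h
  have hA : ∀ k, k ≤ aa G N k ∧ aa G N k + k < hh G N k := by
    intro k
    induction k with
    | zero => simp [aa, hh]
    | succ k ih =>
      obtain ⟨h1, h2⟩ := ih
      have h3 := hh_succ_ge h k
      have h4 : aa G N (k + 1) = aa G N k + hh G N k + 1 := rfl
      omega
  refine ⟨fun k => ⟨(hA k).1, (hA k).2, ?_⟩, ?_, ?_⟩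
  · have := hh_succ_ge h k
    omega
  · intro k
    induction k with
    | zero =>
      intro i
      unfold bb
      split_ifs <;> simp
    | succ k ih =>
      intro i
      unfold bb
      split_ifs with h1 h2
      · exact ih _
      · rcases h.he k ((i - (G k * (hh G N k + 1) : ℕ)) / (hh G N k : ℕ)).toNat with h3 | h3 <;>
          rcases ih ((i - (G k * (hh G N k + 1) : ℕ)) % (hh G N k : ℕ)) with h4 | h4 | h4 <;>
            rw [h3, h4] <;> norm_num
      · simp
  · intro k i hi
    cases k with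
    | zero =>
      have h0 : hh G N 0 = 1 := rfl
      rw [h0] at hi
      unfold bb
      rw [if_neg]
      rintro rfl
      norm_num at hi
    | succ k =>
      have h3 : hh G N (k + 1) = G k * (hh G N k + 1) + N k * hh G N k := rfl
      have h4 : G k * (hh G N k + 1) ≤ hh G N (k + 1) := by rw [h3]; exact Nat.le_add_right _ _
      have h5 : ((G k * (hh G N k + 1) : ℕ) : ℤ) ≤ (hh G N (k + 1) : ℕ) := by exact_mod_cast h4
      have h6 : (0 : ℤ) ≤ ((G k * (hh G N k + 1) : ℕ) : ℤ) := Int.natCast_nonneg _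
      unfold bb
      rw [if_neg, if_neg]
      · rintro ⟨h7, h8⟩
        rcases hi with hi | hi <;> omega
      · rintro ⟨h7, h8⟩
        rcases hi with hi | hi <;> omega

end Pool.Agent.W215.UR
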