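import Pool.Agent.W717.UR.Stm

set_option autoImplicit false

namespace Pool.Agent.W215.UR

open Pool.Agent.W717.UR
open Filter Topology

attribute [local instance] Ultrafilter.addSemigroup

/-- UR-LIMQ: limits along an idempotent are fixed -/
theorem limq : S_LIMQ := by
  intro q hq z hz
  have h : ∀ i, ∃ c : ℤ, (c = -1 ∨ c = 0 ∨ c = 1) ∧ ∀ᶠ n in (q : Filter ℕ), z (n + i) = c := by
    intro i
    have h1 : ∀ᶠ n in (q : Filter ℕ), (z (n + i) = -1 ∨ z (n + i) = 0 ∨ z (n + i) = 1) :=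
      Eventually.of_forall (fun n => hz (n + i))
    rw [Ultrafilter.eventually_or, Ultrafilter.eventually_or] at h1
    rcases h1 with h1 | h1 | h1
    · exact ⟨-1, by simp, h1⟩
    · exact ⟨0, by simp, h1⟩
    · exact ⟨1, by simp, h1⟩
  choose z' hz1 hz2 using h
  refine ⟨z', hz2, ?_, hz1⟩
  intro i
  have h3 := hz2 i
  rw [← hq, Ultrafilter.eventually_add] at h3
  filter_upwards [h3] with n hn
  obtain ⟨m, hm1, hm2⟩ := (hn.and (hz2 (n + i))).exists
  rw [← hm2, ← hm1]
  congr 1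
  ring

end Pool.Agent.W215.UR
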